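import Pool.Agent.R229.MT.Stm

/-! Piece MT-N1 of the project R229/MT. -/

set_option autoImplicit false

noncomputable section

namespace Pool.Agent.R392.MT

open MeasureTheory Filter Topology Set Pool.Agent.R229.MS Pool.Agent.R229.MT
open scoped InnerProductSpace ENNReal NNReal

universe u

variable {X : Type u} [MeasurableSpace X] {μ : Measure X}

/-- a nonnull set of finite measure without atoms contains nonnull sets of small measure -/
lemma exists_small {D : Set X} (hD : MeasurableSet D) (h0 : μ D ≠ 0) (hf : μ D ≠ ∞)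
    (hna : ∀ C ⊆ D, ¬ IsAtomSet μ C) (n : ℕ) :
    ∃ E ⊆ D, MeasurableSet E ∧ μ E ≠ 0 ∧ μ E * 2 ^ n ≤ μ D := by
  induction n with
  | zero => exact ⟨D, Subset.rfl, hD, h0, by simp⟩
  | succ n ih =>
    obtain ⟨E, hED, hE, hE0, hEn⟩ := ih
    have hEf : μ E ≠ ∞ := ne_top_of_le_ne_top hf (measure_mono hED)
    obtain ⟨S, hS, hSE, hS0, hS1⟩ : ∃ S : Set X, MeasurableSet S ∧ S ⊆ E ∧ μ S ≠ 0 ∧
        μ (E \ S) ≠ 0 := by
      by_contra hcon
      push Not at hcon
      refine hna E hED ⟨hE, hE0, hEf, fun S hS hSE => ?_⟩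
      by_cases h : μ S = 0
      · exact Or.inl h
      · exact Or.inr (hcon S hS hSE h)
    have hsum : μ S + μ (E \ S) = μ E := by
      rw [measure_sdiff hSE hS.nullMeasurableSet (ne_top_of_le_ne_top hEf (measure_mono hSE))]
      exact add_tsub_cancel_of_le (measure_mono hSE)
    rcases le_total (μ S) (μ (E \ S)) with hle | hle
    · refine ⟨S, hSE.trans hED, hS, hS0, ?_⟩
      calc μ S * 2 ^ (n + 1) = (μ S + μ S) * 2 ^ n := by ring
        _ ≤ (μ S + μ (E \ S)) * 2 ^ n := by gcongr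
        _ = μ E * 2 ^ n := by rw [hsum]
        _ ≤ μ D := hEn
    · refine ⟨E \ S, sdiff_subset.trans hED, hE.diff hS, hS1, ?_⟩
      calc μ (E \ S) * 2 ^ (n + 1) = (μ (E \ S) + μ (E \ S)) * 2 ^ n := by ring
        _ ≤ (μ S + μ (E \ S)) * 2 ^ n := by gcongr
        _ = μ E * 2 ^ n := by rw [hsum]
        _ ≤ μ D := hEn

lemma exists_small' {D : Set X} (hD : MeasurableSet D) (h0 : μ D ≠ 0) (hf : μ D ≠ ∞)
    (hna : ∀ C ⊆ D, ¬ IsAtomSet μ C) (c : ℝ≥0) {m : ℝ≥0∞} (hm : m ≠ 0) :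
    ∃ E ⊆ D, MeasurableSet E ∧ μ E ≠ 0 ∧ c * μ E < m := by
  have h1 : Tendsto (fun n : ℕ => (c : ℝ≥0∞) * μ D * (2⁻¹ : ℝ≥0∞) ^ n) atTop
      (𝓝 ((c : ℝ≥0∞) * μ D * 0)) :=
    ENNReal.Tendsto.const_mul
      (ENNReal.tendsto_pow_atTop_nhds_zero_of_lt_one (by simp))
      (Or.inr (ENNReal.mul_ne_top ENNReal.coe_ne_top hf))
  rw [mul_zero] at h1
  obtain ⟨n, hn⟩ := (h1.eventually (gt_mem_nhds (pos_iff_ne_zero.mpr hm))).exists
  obtain ⟨E, hED, hE, hE0, hEn⟩ := exists_small hD h0 hf hna n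
  refine ⟨E, hED, hE, hE0, lt_of_le_of_lt ?_ hn⟩
  have h2 : μ E ≤ μ D * (2⁻¹ : ℝ≥0∞) ^ n := by
    rw [← ENNReal.inv_pow, ← div_eq_mul_inv, ENNReal.le_div_iff_mul_le (Or.inl (by positivity))
      (Or.inl (by simp))]
    exact hEn
  calc (c : ℝ≥0∞) * μ E ≤ c * (μ D * (2⁻¹ : ℝ≥0∞) ^ n) := by gcongr
    _ = _ := by ring

/-- an inner product vanishes when the supports are disjoint -/
lemma inner_eq_zero {f g : L2 μ} (h : ∀ᵐ x ∂μ, (g : X → ℂ) x = 0 ∨ (f : X → ℂ) x = 0) :
    ⟪g, f⟫_ℂ = 0 := by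
  rw [L2.inner_def]
  have : (fun x => ⟪(g : X → ℂ) x, (f : X → ℂ) x⟫_ℂ) =ᵐ[μ] fun _ => 0 := by
    filter_upwards [h] with x hx
    rcases hx with hx | hx
    · rw [hx, inner_zero_left]
    · rw [hx, inner_zero_right]
  rw [integral_congr_ae this, integral_zero]

theorem stmtN1 : StmtN1.{u} := by
  intro X _ μ b D hb hD hDf hna a c hc f g hf hg
  by_contra hne
  set h : L2 μ := a f with hh
  have hhm : Measurable (h : X → ℂ) := (Lp.stronglyMeasurable h).measurable
  -- a sector where `h` has positive real part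
  obtain ⟨θ, hθ⟩ : ∃ θ : ℂ, μ (D ∩ {x | 0 < (θ * (h : X → ℂ) x).re}) ≠ 0 := by
    by_contra hcon
    push Not at hcon
    apply hne
    apply inner_eq_zero
    have key : ∀ θ : ℂ, ∀ᵐ x ∂μ, ¬ (x ∈ D ∩ {x | 0 < (θ * (h : X → ℂ) x).re}) := by
      intro θ
      exact measure_eq_zero_iff_ae_notMem.mp (hcon θ)
    filter_upwards [hg, key 1, key (-1), key Complex.I, key (-Complex.I)] with x hgx h1 h2 h3 h4
    by_cases hx : x ∈ D
    · right
      simp only [mem_inter_iff, hx, mem_ofPred_eq, true_and, not_lt] at h1 h2 h3 h4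
      simp at h1 h2 h3 h4
      apply Complex.ext
      · simp; linarith
      · simp; linarith
    · exact Or.inl (hgx hx)
  set D0 := D ∩ {x | 0 < (θ * (h : X → ℂ) x).re} with hD0
  have hD0m : MeasurableSet D0 :=
    hD.inter (measurableSet_lt measurable_const (Complex.measurable_re.comp
      (measurable_const.mul hhm)))
  have hD0f : μ D0 ≠ ∞ := ne_top_of_le_ne_top hDf (measure_mono inter_subset_left)
  obtain ⟨E, hED, hE, hE0, hEs⟩ := exists_small' hD0m hθ hD0f
    (fun C hC => hna C (hC.trans inter_subset_left)) c hb.2.1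
  have hEf : μ E ≠ ∞ := ne_top_of_le_ne_top hD0f (measure_mono hED)
  set w : L2 μ := indicatorConstLp 2 hE hEf (1 : ℂ) with hw
  set v : L2 μ := ContinuousLinearMap.adjoint a w with hv
  have hvm : Measurable (v : X → ℂ) := (Lp.stronglyMeasurable v).measurable
  have hsw : μ {x | w x ≠ 0} ≤ μ E := by
    apply measure_mono_ae
    filter_upwards [indicatorConstLp_coeFn (p := 2) (hs := hE) (hμs := hEf) (c := (1 : ℂ))]
      with x hx hxx
    by_contra hcon
    apply hxx
    show w x = 0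
    rw [hw, hx, Set.indicator_of_notMem hcon]
  have hsv : μ {x | v x ≠ 0} < μ b := by
    refine lt_of_le_of_lt (hc w) (lt_of_le_of_lt ?_ hEs)
    gcongr
  have hvb : ∀ᵐ x ∂μ, x ∈ b → v x = 0 := by
    have hSm : MeasurableSet ({x | v x ≠ 0} ∩ b) :=
      (measurableSet_eq_fun hvm measurable_const).compl.inter hb.1
    rcases hb.2.2.2 _ hSm inter_subset_right with h1 | h1
    · filter_upwards [measure_eq_zero_iff_ae_notMem.mp h1] with x hx hxb
      by_contra hcon
      exact hx ⟨hcon, hxb⟩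
    · exfalso
      have h2 : μ b ≤ μ ({x | v x ≠ 0} ∩ b) + μ (b \ ({x | v x ≠ 0} ∩ b)) := by
        rw [← measure_union disjoint_sdiff_right (hb.1.diff hSm), union_sdiff_cancel
          inter_subset_right]
      rw [h1, add_zero] at h2
      exact absurd (h2.trans (measure_mono inter_subset_left)) (not_le.mpr hsv)
  have hz : ⟪w, h⟫_ℂ = 0 := by
    rw [hh, ← ContinuousLinearMap.adjoint_inner_left]
    apply inner_eq_zero
    filter_upwards [hvb, hf] with x h1 h2
    by_cases hx : x ∈ b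
    · exact Or.inl (h1 hx)
    · exact Or.inr (h2 hx)
  rw [hw, L2.inner_indicatorConstLp_one] at hz
  have hint : IntegrableOn (h : X → ℂ) E μ := by
    have : IsFiniteMeasure (μ.restrict E) := ⟨by simpa using lt_top_iff_ne_top.mpr hEf⟩
    exact ((Lp.memLp h).restrict E).integrable (by norm_num)
  have h1 : ∫ x in E, (θ * (h : X → ℂ) x).re ∂μ = 0 := by
    have h2 : ∫ x in E, (θ * (h : X → ℂ) x) ∂μ = 0 := by
      rw [integral_const_mul, hz, mul_zero]
    have h3 := integral_re (hint.const_mul θ)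
    simp only [RCLike.re_to_complex] at h3
    rw [h3, h2]
    rfl
  have hint2 : IntegrableOn (fun x => (θ * (h : X → ℂ) x).re) E μ := (hint.const_mul θ).re
  have h4 := (setIntegral_eq_zero_iff_of_nonneg_ae (μ := μ) (s := E)
    (f := fun x => (θ * (h : X → ℂ) x).re) ?_ hint2).mp h1
  · rw [Filter.EventuallyEq, ae_restrict_iff' hE] at h4
    apply hE0
    rw [measure_eq_zero_iff_ae_notMem]
    filter_upwards [h4] with x hx hxE
    have h5 : 0 < (θ * (h : X → ℂ) x).re := (hED hxE).2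
    have h6 := hx hxE
    simp only [Pi.zero_apply] at h6
    linarith
  · rw [Filter.EventuallyLE, ae_restrict_iff' hE]
    exact ae_of_all _ fun x hxE => ((hED hxE).2 : 0 < (θ * (h : X → ℂ) x).re).le

end Pool.Agent.R392.MT
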